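import Pool.Agent.Y990.OA.Stm4

set_option autoImplicit false

open MeasureTheory Set

namespace Pool.Agent.Y115.OA

open Pool.Agent.Y990.CB Pool.Agent.Y990.OA
open H974 (ind)

noncomputable section

variable {d : ℕ}

/-- a path crosses the level `h` -/
theorem cross {M : Mod d} {ω : M.ι → Bool} {R : Set (Z d)} {i : Fin d} {h : ℤ} {x y : Z d}
    (hx : x i ≤ h) (hy : h ≤ y i) (hr : (G M ω R).Reachable x y) :
    ∃ v, v i = h ∧ (G M ω R).Reachable x v := by
  obtain ⟨p⟩ := hr
  induction p with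
  | nil => exact ⟨_, le_antisymm hx hy, SimpleGraph.Reachable.refl _⟩
  | cons hab q ih =>
    rename_i a b c
    by_cases ha : a i = h
    · exact ⟨a, ha, SimpleGraph.Reachable.refl _⟩
    · have h1 := Nb_coord hab.1 i
      rw [abs_le] at h1
      have hlt : a i < h := lt_of_le_of_ne hx ha
      obtain ⟨v, hv, hr⟩ := ih (by linarith [h1.1, h1.2]) hy
      exact ⟨v, hv, SimpleGraph.Reachable.trans (SimpleGraph.Adj.reachable hab) hr⟩

/-- the section of the cube in the middle -/
def Sec (i : Fin d) (n : ℕ) : Finset (Z d) :=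
  Fintype.piFinset (fun j => if j = i then {((n / 2 : ℕ) : ℤ)} else Finset.Icc 0 (n : ℤ))

theorem mem_Sec {i : Fin d} {n : ℕ} {v : Z d} :
    v ∈ Sec i n ↔ v i = ((n / 2 : ℕ) : ℤ) ∧ ∀ j, j ≠ i → 0 ≤ v j ∧ v j ≤ n := by
  unfold Sec
  rw [Fintype.mem_piFinset]
  constructor
  · intro h
    refine ⟨?_, fun j hj => ?_⟩
    · have := h i
      rw [if_pos rfl, Finset.mem_singleton] at this
      exact this
    · have := h j
      rw [if_neg hj, Finset.mem_Icc] at this
      exact this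
  · rintro ⟨h1, h2⟩ j
    by_cases hj : j = i
    · subst hj
      rw [if_pos rfl, Finset.mem_singleton]
      exact h1
    · rw [if_neg hj, Finset.mem_Icc]
      exact h2 j hj

/-- every spanning cluster is the cluster of a vertex of the section -/
theorem rep {M : Mod d} {i : Fin d} {n : ℕ} {ω : M.ι → Bool} {X : Set (Z d)}
    (hX : X ∈ Sp M i n ω) : ∃ v ∈ Sec i n, v ∈ Qb d n ∧ X = cl M ω (Qb d n) v ∧
      ∃ x, x i = 0 ∧ (G M ω (Qb d n)).Reachable v x := by
  obtain ⟨x, hxQ, hxi, rfl, y, hy, hyn⟩ := hX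
  obtain ⟨v, hv, hr⟩ := cross (i := i) (h := ((n / 2 : ℕ) : ℤ)) (by rw [hxi]; positivity)
    (by rw [hyn]; exact_mod_cast Nat.div_le_self n 2) (show (G M ω (Qb d n)).Reachable x y from hy)
  have hvQ : v ∈ Qb d n := cl_subset hxQ hr
  refine ⟨v, mem_Sec.2 ⟨hv, fun j _ => hvQ j⟩, hvQ, (cl_eq hr).symm, x, hxi, hr.symm⟩

/-- vertices of the section near the boundary in the direction `j` -/
theorem card_side {i j : Fin d} (hij : j ≠ i) (n a : ℕ) (hd : 2 ≤ d) :
    ((Sec i n).filter fun v => v j < (a : ℤ) + 1 ∨ (n : ℤ) - ((a : ℤ) + 1) < v j).card ≤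
      2 * (a + 1) * (n + 1) ^ (d - 2) := by
  classical
  have hsub : ((Sec i n).filter fun v => v j < (a : ℤ) + 1 ∨ (n : ℤ) - ((a : ℤ) + 1) < v j) ⊆
      Fintype.piFinset (fun l => if l = i then {((n / 2 : ℕ) : ℤ)} else
        if l = j then Finset.Icc (0 : ℤ) a ∪ Finset.Icc ((n : ℤ) - a) n else
          Finset.Icc 0 (n : ℤ)) := by
    intro v hv
    rw [Finset.mem_filter, mem_Sec] at hv
    obtain ⟨⟨h1, h2⟩, h3⟩ := hv
    rw [Fintype.mem_piFinset]
    intro l
    by_cases hl : l = i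
    · subst hl
      rw [if_pos rfl, Finset.mem_singleton]
      exact h1
    · rw [if_neg hl]
      by_cases hlj : l = j
      · subst hlj
        rw [if_pos rfl, Finset.mem_union, Finset.mem_Icc, Finset.mem_Icc]
        have := h2 l hl
        omega
      · rw [if_neg hlj, Finset.mem_Icc]
        exact h2 l hl
  refine le_trans (Finset.card_le_card hsub) ?_
  rw [Fintype.card_piFinset]
  rw [← Finset.mul_prod_erase Finset.univ _ (Finset.mem_univ i),
    ← Finset.mul_prod_erase (Finset.univ.erase i) _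
      (Finset.mem_erase.2 ⟨hij, Finset.mem_univ j⟩)]
  rw [if_pos rfl, Finset.card_singleton, one_mul, if_neg hij, if_pos rfl]
  have h1 : (Finset.Icc (0 : ℤ) a ∪ Finset.Icc ((n : ℤ) - a) n).card ≤ 2 * (a + 1) := by
    refine le_trans (Finset.card_union_le _ _) ?_
    rw [Int.card_Icc, Int.card_Icc]
    omega
  have h2 : ∏ l ∈ (Finset.univ.erase i).erase j, (if l = i then {((n / 2 : ℕ) : ℤ)} else
        if l = j then Finset.Icc (0 : ℤ) a ∪ Finset.Icc ((n : ℤ) - a) n else
          Finset.Icc 0 (n : ℤ)).card = (n + 1) ^ (d - 2) := by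
    rw [Finset.prod_congr rfl (g := fun _ => n + 1), Finset.prod_const]
    · congr 1
      rw [Finset.card_erase_of_mem (Finset.mem_erase.2 ⟨hij, Finset.mem_univ j⟩),
        Finset.card_erase_of_mem (Finset.mem_univ i), Finset.card_univ, Fintype.card_fin]
      omega
    · intro l hl
      rw [Finset.mem_erase, Finset.mem_erase] at hl
      rw [if_neg hl.2.1, if_neg hl.1, Int.card_Icc]
      omega
  rw [h2]
  exact Nat.mul_le_mul_right _ h1

/-- the centre of the tile of `v` -/
def ctr (i : Fin d) (n k : ℕ) (v : Z d) : Z d := fun j =>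
  if j = i then ((n / 2 : ℕ) : ℤ) else ((((v j).toNat + k) / (2 * k + 1) * (2 * k + 1) : ℕ) : ℤ)

theorem ctr_mem {i : Fin d} {n k : ℕ} {v : Z d} (hv : v ∈ Sec i n) :
    ctr i n k v ∈ Tl i n k := by
  unfold Tl
  rw [Fintype.mem_piFinset]
  intro j
  unfold ctr
  by_cases hj : j = i
  · rw [if_pos hj, if_pos hj, Finset.mem_singleton]
  · rw [if_neg hj, if_neg hj, Finset.mem_image]
    refine ⟨((v j).toNat + k) / (2 * k + 1), ?_, rfl⟩
    rw [Finset.mem_range]
    have h1 := (mem_Sec.1 hv).2 j hj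
    have h2 : (v j).toNat ≤ n := by omega
    calc ((v j).toNat + k) / (2 * k + 1) ≤ (n + (2 * k + 1)) / (2 * k + 1) :=
          Nat.div_le_div_right (by omega)
      _ = n / (2 * k + 1) + 1 := Nat.add_div_right _ (by omega)
      _ < _ := by omega

theorem mem_ctr {i : Fin d} {n k : ℕ} {v : Z d} (hv : v ∈ Sec i n) :
    v ∈ Bo (ctr i n k v) k := by
  intro j
  unfold ctr
  by_cases hj : j = i
  · rw [if_pos hj, hj, (mem_Sec.1 hv).1, sub_self, abs_zero]
    positivity
  · rw [if_neg hj]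
    have h1 := (mem_Sec.1 hv).2 j hj
    have h2 : ((v j).toNat : ℤ) = v j := Int.toNat_of_nonneg h1.1
    have h3 := Nat.div_add_mod ((v j).toNat + k) (2 * k + 1)
    have h4 := Nat.mod_lt ((v j).toNat + k) (show 0 < 2 * k + 1 by omega)
    rw [mul_comm] at h3
    set q := ((v j).toNat + k) / (2 * k + 1) * (2 * k + 1)
    rw [abs_le]
    omega

theorem box_sub {i : Fin d} {n k m : ℕ} {v : Z d} (hv : v ∈ Sec i n) (hm : 2 * m ≤ n)
    (hside : ∀ j, j ≠ i → (m : ℤ) + k + 1 ≤ v j ∧ v j ≤ (n : ℤ) - (m + k + 1)) :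
    Bo (ctr i n k v) m ⊆ Qb d n := by
  intro w hw j
  have h1 := hw j
  have h2 := mem_ctr (k := k) hv j
  by_cases hj : j = i
  · have h3 : ctr i n k v j = ((n / 2 : ℕ) : ℤ) := by
      unfold ctr
      rw [if_pos hj]
    rw [h3, abs_le] at h1
    omega
  · have h4 := hside j hj
    rw [abs_le] at h1 h2
    omega

theorem card_Tl (i : Fin d) (n k : ℕ) :
    (Tl i n k).card ≤ (n / (2 * k + 1) + 2) ^ (d - 1) := by
  unfold Tl
  rw [Fintype.card_piFinset, ← Finset.mul_prod_erase Finset.univ _ (Finset.mem_univ i),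
    if_pos rfl, Finset.card_singleton, one_mul]
  calc _ ≤ ∏ l ∈ Finset.univ.erase i, (n / (2 * k + 1) + 2) := by
        refine Finset.prod_le_prod (fun _ _ => Nat.zero_le _) fun l hl => ?_
        rw [if_neg (Finset.ne_of_mem_erase hl)]
        refine le_trans Finset.card_image_le ?_
        rw [Finset.card_range]
    _ = _ := by
        rw [Finset.prod_const, Finset.card_erase_of_mem (Finset.mem_univ i), Finset.card_univ,
          Fintype.card_fin]

/-- the bound for representatives -/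
theorem bound_V (M : Mod d) (i : Fin d) (k m n : ℕ) (ω : M.ι → Bool) (hd : 2 ≤ d) (hkm : k ≤ m)
    (hmn : 2 * m ≤ n) (V : Finset (Z d)) (hVs : V ⊆ Sec i n)
    (hVx : ∀ v ∈ V, ∃ x, x i = 0 ∧ (G M ω (Qb d n)).Reachable v x)
    (hVd : ∀ v ∈ V, ∀ w ∈ V, v ≠ w → ¬ (G M ω (Qb d n)).Reachable v w) :
    (V.card : ℝ) ≤ ((n / (2 * k + 1) + 2 : ℕ) : ℝ) ^ (d - 1) +
      ((2 * k + 1 : ℕ) : ℝ) ^ d * ∑ z ∈ Tl i n k, ind (ω ∈ Ta M z k m) +
      2 * d * (m + k + 1) * ((n : ℝ) + 1) ^ (d - 2) := by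
  classical
  set P : Z d → Prop := fun v => ∃ j, j ≠ i ∧ (v j < (m : ℤ) + k + 1 ∨ (n : ℤ) - (m + k + 1) < v j)
    with hP
  have hsplit : V.card = (V.filter P).card + (V.filter fun v => ¬ P v).card :=
    (Finset.card_filter_add_card_filter_not P).symm
  -- the vertices near the sides
  have h1 : (V.filter P).card ≤ d * (2 * (m + k + 1) * (n + 1) ^ (d - 2)) := by
    have hsub : V.filter P ⊆ (Finset.univ.erase i).biUnion fun j =>
        (Sec i n).filter fun v => v j < ((m + k : ℕ) : ℤ) + 1 ∨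
          (n : ℤ) - (((m + k : ℕ) : ℤ) + 1) < v j := by
      intro v hv
      rw [Finset.mem_filter] at hv
      obtain ⟨hvV, j, hj, hvj⟩ := hv
      rw [Finset.mem_biUnion]
      refine ⟨j, Finset.mem_erase.2 ⟨hj, Finset.mem_univ j⟩, ?_⟩
      rw [Finset.mem_filter]
      refine ⟨hVs hvV, ?_⟩
      push_cast
      exact hvj
    refine le_trans (Finset.card_le_card hsub) (le_trans Finset.card_biUnion_le ?_)
    refine le_trans (Finset.sum_le_card_nsmul _ _ (2 * (m + k + 1) * (n + 1) ^ (d - 2))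
      fun j hj => card_side (Finset.ne_of_mem_erase hj) n (m + k) hd) ?_
    rw [smul_eq_mul]
    refine Nat.mul_le_mul_right _ ?_
    refine le_trans (Finset.card_le_univ _) ?_
    rw [Fintype.card_fin]
  -- the other vertices
  set V2 := V.filter fun v => ¬ P v with hV2
  have hV2s : ∀ v ∈ V2, v ∈ V ∧ ∀ j, j ≠ i → (m : ℤ) + k + 1 ≤ v j ∧
      v j ≤ (n : ℤ) - (m + k + 1) := by
    intro v hv
    rw [hV2, Finset.mem_filter] at hv
    refine ⟨hv.1, fun j hj => ?_⟩
    have h2 := hv.2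
    rw [hP] at h2
    push Not at h2
    exact h2 j hj
  have h2 : V2.card = ∑ z ∈ Tl i n k, (V2.filter fun v => ctr i n k v = z).card :=
    Finset.card_eq_sum_card_fiberwise fun v hv => ctr_mem (hVs (hV2s v hv).1)
  have h3 : ∀ z ∈ Tl i n k, ((V2.filter fun v => ctr i n k v = z).card : ℝ) ≤
      1 + ((2 * k + 1 : ℕ) : ℝ) ^ d * ind (ω ∈ Ta M z k m) := by
    intro z _
    have hnn : 0 ≤ ((2 * k + 1 : ℕ) : ℝ) ^ d * ind (ω ∈ Ta M z k m) :=
      mul_nonneg (by positivity) (H974.ind_nonneg _)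
    by_cases hle : (V2.filter fun v => ctr i n k v = z).card ≤ 1
    · have : ((V2.filter fun v => ctr i n k v = z).card : ℝ) ≤ 1 := by exact_mod_cast hle
      linarith
    · push Not at hle
      obtain ⟨v, hv, w, hw, hvw⟩ := Finset.one_lt_card.1 hle
      rw [Finset.mem_filter] at hv hw
      obtain ⟨hvV, hvs⟩ := hV2s v hv.1
      obtain ⟨hwV, hws⟩ := hV2s w hw.1
      have hAm : ∀ u ∈ V, ctr i n k u = z → Am M ω z m u := by
        intro u hu huz
        obtain ⟨x, hxi, hr⟩ := hVx u hu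
        have hub : u ∈ Bo z m := by
          rw [← huz]
          exact Bo_mono _ hkm (mem_ctr (hVs hu))
        refine exit_Am hub ?_ hr
        by_cases hxb : x ∈ Bo z m
        · right
          refine ⟨hxb, i, ?_⟩
          have h4 := hxb i
          have h5 : z i = ((n / 2 : ℕ) : ℤ) := by
            rw [← huz]
            unfold ctr
            rw [if_pos rfl]
          rw [hxi, h5] at h4 ⊢
          rw [zero_sub, abs_neg, abs_of_nonneg (by positivity)] at h4 ⊢
          omega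
        · left
          exact hxb
      have hTa : ω ∈ Ta M z k m := by
        refine ⟨v, ?_, w, ?_, hAm v hvV hv.2, hAm w hwV hw.2, ?_⟩
        · rw [← hv.2]
          exact mem_ctr (hVs hvV)
        · rw [← hw.2]
          exact mem_ctr (hVs hwV)
        · intro hr
          refine hVd v hvV w hwV hvw (reach_mono ?_ hr)
          rw [← hv.2]
          exact box_sub (hVs hvV) hmn hvs
      have hi : ind (ω ∈ Ta M z k m) = 1 := by
        exact H974.ind_of hTa
      have hc : (V2.filter fun v => ctr i n k v = z).card ≤ (2 * k + 1) ^ d := by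
        rw [← card_Bf z k]
        refine Finset.card_le_card fun u hu => ?_
        rw [Finset.mem_filter] at hu
        rw [mem_Bf, ← hu.2]
        exact mem_ctr (hVs (hV2s u hu.1).1)
      rw [hi, mul_one]
      have hc' : ((V2.filter fun v => ctr i n k v = z).card : ℝ) ≤ ((2 * k + 1 : ℕ) : ℝ) ^ d := by
        exact_mod_cast hc
      linarith
  have h4 : (V2.card : ℝ) ≤ ((n / (2 * k + 1) + 2 : ℕ) : ℝ) ^ (d - 1) +
      ((2 * k + 1 : ℕ) : ℝ) ^ d * ∑ z ∈ Tl i n k, ind (ω ∈ Ta M z k m) := by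
    rw [h2]
    push_cast
    refine le_trans (Finset.sum_le_sum h3) ?_
    rw [Finset.sum_add_distrib, ← Finset.mul_sum, Finset.sum_const, nsmul_eq_mul, mul_one]
    have := card_Tl i n k
    have h5 : ((Tl i n k).card : ℝ) ≤ ((n / (2 * k + 1) + 2 : ℕ) : ℝ) ^ (d - 1) := by
      exact_mod_cast this
    push_cast at h5 ⊢
    linarith
  have h5 : ((V.filter P).card : ℝ) ≤ 2 * d * (m + k + 1) * ((n : ℝ) + 1) ^ (d - 2) := by
    have : ((V.filter P).card : ℝ) ≤ ((d * (2 * (m + k + 1) * (n + 1) ^ (d - 2)) : ℕ) : ℝ) := by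
      exact_mod_cast h1
    refine le_trans this (le_of_eq ?_)
    push_cast
    ring
  rw [hsplit]
  push_cast
  push_cast at h4
  linarith

theorem sdet : S_sdet := by
  classical
  intro d M i k m n ω hd hkm hmn _
  have hfin : (Sp M i n ω).Finite := by
    refine ((Sec i n).finite_toSet.image fun v => cl M ω (Qb d n) v).subset ?_
    intro X hX
    obtain ⟨v, hv, _, hXv, _⟩ := rep hX
    exact ⟨v, hv, hXv.symm⟩
  choose! f hf1 hf2 hf3 hf4 using fun (X : Set (Z d)) (hX : X ∈ Sp M i n ω) => rep hX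
  have hinj : Set.InjOn f (Sp M i n ω) := by
    intro X hX Y hY hXY
    rw [hf3 X hX, hf3 Y hY, hXY]
  set V : Finset (Z d) := hfin.toFinset.image f with hV
  have hcard : (Sp M i n ω).ncard = V.card := by
    rw [Set.ncard_eq_toFinset_card _ hfin, hV, Finset.card_image_of_injOn]
    rw [Set.Finite.coe_toFinset]
    exact hinj
  have hmem : ∀ v ∈ V, ∃ X ∈ Sp M i n ω, f X = v := by
    intro v hv
    rw [hV, Finset.mem_image] at hv
    obtain ⟨X, hX, rfl⟩ := hv
    exact ⟨X, (Set.Finite.mem_toFinset _).1 hX, rfl⟩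
  rw [hcard]
  refine bound_V M i k m n ω hd hkm hmn V ?_ ?_ ?_
  · intro v hv
    obtain ⟨X, hX, rfl⟩ := hmem v hv
    exact hf1 X hX
  · intro v hv
    obtain ⟨X, hX, rfl⟩ := hmem v hv
    exact hf4 X hX
  · intro v hv w hw hvw hr
    obtain ⟨X, hX, rfl⟩ := hmem v hv
    obtain ⟨Y, hY, rfl⟩ := hmem w hw
    apply hvw
    congr 1
    rw [hf3 X hX, hf3 Y hY]
    exact (cl_eq hr).symm

end

end Pool.Agent.Y115.OA
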